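import Mathlib
import Pool.Agent.Helper25.AddmDefs
import Pool.Agent.Helper25.AddmProof

set_option autoImplicit false

namespace Pool.Agent.Results.MP_d4db3843_lc.CorrectAllDims

open Pool.Agent.Helper25.Addm

/-- **The approximate double description method is correct in every dimension `d ≥ 2`.** -/
theorem result : ∀ d : ℕ, 2 ≤ d → CorrectInDim d := correct

end Pool.Agent.Results.MP_d4db3843_lc.CorrectAllDims
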